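import Pool.Agent.Q215.SR.Stm

set_option autoImplicit false

open Set Topology Filter Ordinal

namespace Pool.Agent.Q222.SR

open Pool.Agent.Q215.SR

theorem countable_Iio {lam : Ordinal.{0}} (h : lam < ω_ 1) : (Set.Iio lam).Countable := by
  rw [← Cardinal.le_aleph0_iff_set_countable]
  have h1 : lam.card < Cardinal.aleph 1 := by
    rw [← Cardinal.lt_ord]
    rwa [Cardinal.ord_aleph]
  have h2 : lam.card ≤ Cardinal.aleph0 := by
    rw [← Cardinal.succ_aleph0] at h1
    exact Order.lt_succ_iff.1 h1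
  rw [Cardinal.mk_Iio_ordinal, Cardinal.lift_le_aleph0]
  exact h2

theorem t_diag : S_diag := by
  rintro ⟨hmono, hcompl, hunion, hinter⟩ hUniv ξ lam hξ1 hξ hlam hlim P
  have hpol : PolishSpace (ℕ → Bool) := ⟨⟩
  obtain ⟨W, hW, hWu⟩ := hUniv ξ hξ1 hξ
  obtain ⟨e, he⟩ : ∃ e : Ordinal.{0} → ℕ, InjOn e (Set.Iio lam) := by
    exact Set.countable_iff_exists_injOn.1 (countable_Iio hlam)
  have hsec : ∀ n : ℕ, Continuous (fun (z : ℕ → Bool) (k : ℕ) => z (Nat.pair n k)) := fun n =>
    continuous_pi (fun k => continuous_apply _)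
  have hsucc : ∀ θ, θ < lam → θ + 1 < lam := fun θ hθ => by
    have := hlim.succ_lt hθ
    rwa [Order.succ_eq_add_one] at this
  obtain ⟨F, hF⟩ : ∃ F : Ordinal.{0} → Set (ℕ → Bool),
    F = fun η => {x | ∀ θ < η, θ < lam → W (fun k => x (Nat.pair (e θ) k)) x} := ⟨_, rfl⟩
  have hmemF : ∀ η x, x ∈ F η ↔ ∀ θ < η, θ < lam → W (fun k => x (Nat.pair (e θ) k)) x := by
    intro η x
    rw [hF]
    rfl
  refine ⟨F, ⟨?_, ?_, ?_, ?_⟩, ?_⟩
  · intro η hη
    classical
    have h2 : (F η)ᶜ = ⋃ n : ℕ, (if ∃ θ, θ < η ∧ θ < lam ∧ e θ = n then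
        {x : ℕ → Bool | W (fun k => x (Nat.pair n k)) x}ᶜ else ∅) := by
      ext x
      rw [mem_compl_iff, hmemF, mem_iUnion]
      push Not
      constructor
      · rintro ⟨θ, h3, h4, h5⟩
        refine ⟨e θ, ?_⟩
        rw [if_pos ⟨θ, h3, h4, rfl⟩]
        exact h5
      · rintro ⟨n, hn⟩
        split_ifs at hn with h6
        · obtain ⟨θ, h3, h4, rfl⟩ := h6
          exact ⟨θ, h3, h4, hn⟩
        · exact absurd hn (notMem_empty _)
    rw [h2]
    apply hunion
    intro n
    split_ifs with h3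
    · exact hW _ (hsec n)
    · exact hmono _ 1 ξ _ hξ1 (SigmaZero.base _ isOpen_empty)
  · intro η θ hηθ x hx
    rw [hmemF] at hx ⊢
    intro θ' h1 h2
    exact hx θ' (lt_of_lt_of_le h1 hηθ) h2
  · ext x
    rw [hmemF]
    simp
  · intro η hη hηl
    ext x
    rw [hmemF, mem_iInter₂]
    constructor
    · intro h θ hθ
      rw [hmemF]
      intro θ' h1 h2
      exact h θ' (h1.trans hθ) h2
    · intro h θ hθ h2
      have h3 : θ + 1 < η := by
        have := hηl.succ_lt hθ
        rwa [Order.succ_eq_add_one] at this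
      exact (hmemF _ _).1 (h (θ + 1) h3) θ (Order.lt_add_one_iff.2 le_rfl) h2
  · intro G hG hcontra
    have hc : ∀ θ : Ordinal.{0}, ∃ c : ℕ → Bool, θ < lam → G (θ + 1) = {x | W c x} := by
      intro θ
      by_cases hθ : θ < lam
      · obtain ⟨c, hc⟩ := hWu (G (θ + 1)) (hG.cls _ (hsucc θ hθ))
        exact ⟨c, fun _ => hc⟩
      · exact ⟨fun _ => false, fun h => absurd h hθ⟩
    choose c hc using hc
    classical
    obtain ⟨z, hz⟩ : ∃ z : ℕ → Bool, z = fun m => if h : ∃ θ, θ < lam ∧ e θ = (Nat.unpair m).1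
      then c h.choose (Nat.unpair m).2 else false := ⟨_, rfl⟩
    have hzs : ∀ θ < lam, (fun k => z (Nat.pair (e θ) k)) = c θ := by
      intro θ hθ
      funext k
      have h : ∃ θ', θ' < lam ∧ e θ' = (Nat.unpair (Nat.pair (e θ) k)).1 :=
        ⟨θ, hθ, by rw [Nat.unpair_pair]⟩
      have h1 : h.choose = θ := by
        apply he h.choose_spec.1 hθ
        have := h.choose_spec.2
        rw [this, Nat.unpair_pair]
      rw [hz]
      simp only
      rw [dif_pos h, h1, Nat.unpair_pair]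
    have hFG : ∀ η, η < lam → (z ∈ F η ↔ z ∈ G η) := by
      intro η hη
      rw [hmemF]
      have h1 : (∀ θ < η, θ < lam → W (fun k => z (Nat.pair (e θ) k)) z) ↔
          ∀ θ < η, z ∈ G (θ + 1) := by
        constructor
        · intro h θ hθ
          have hθl := hθ.trans hη
          rw [hc θ hθl]
          have := h θ hθ hθl
          rwa [hzs θ hθl] at this
        · intro h θ hθ hθl
          have := h θ hθ
          rw [hc θ hθl] at this
          rw [hzs θ hθl]
          exact this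
      rw [h1]
      constructor
      · intro h
        rcases Ordinal.zero_or_succ_or_isSuccLimit η with h0 | ⟨θ, rfl⟩ | hl
        · rw [h0, hG.zero]
          exact mem_univ _
        · have := h θ (Order.lt_add_one_iff.2 le_rfl)
          exact this
        · rw [hG.cont η hη hl, mem_iInter₂]
          intro θ hθ
          exact hG.anti θ (θ + 1) (Order.le_succ θ) (h θ hθ)
      · intro h θ hθ
        exact hG.anti (θ + 1) η (Order.succ_le_of_lt hθ) h
    have hiff : z ∈ Lv P F lam ↔ z ∈ Lv P G lam := by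
      constructor
      · rintro ⟨η, h1, h2, h3, h4⟩
        exact ⟨η, h1, h2, (hFG η h1).1 h3, fun h => h4 ((hFG _ (hsucc η h1)).2 h)⟩
      · rintro ⟨η, h1, h2, h3, h4⟩
        exact ⟨η, h1, h2, (hFG η h1).2 h3, fun h => h4 ((hFG _ (hsucc η h1)).1 h)⟩
    by_cases hzF : z ∈ Lv P F lam
    · have h2 := hiff.1 hzF
      rw [← hcontra] at h2
      exact h2 hzF
    · have h2 : z ∈ (Lv P F lam)ᶜ := hzF
      rw [hcontra] at h2
      exact hzF (hiff.2 h2)

end Pool.Agent.Q222.SR
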