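import Pool.Agent.Q215.SR.Stm

set_option autoImplicit false

open Set Topology Filter Ordinal

namespace Pool.Agent.Q222.SR

open Pool.Agent.Q215.SR

theorem open_boxes (V : Set (ℝ × ℝ)) (hV : IsOpen V) :
    ∃ e : ℕ → Set ℝ × Set ℝ, (∀ n, IsOpen (e n).1 ∧ IsOpen (e n).2) ∧
      V = ⋃ n, (e n).1 ×ˢ (e n).2 := by
  obtain ⟨B, hBc, -, hB⟩ := TopologicalSpace.exists_countable_basis ℝ
  obtain ⟨S, hS⟩ : ∃ S : Set (Set ℝ × Set ℝ),
    S = insert (∅, ∅) {p | p ∈ B ×ˢ B ∧ p.1 ×ˢ p.2 ⊆ V} := ⟨_, rfl⟩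
  have hSc : S.Countable := by
    rw [hS]
    exact ((hBc.prod hBc).mono (fun p hp => hp.1)).insert _
  have hSn : S.Nonempty := ⟨(∅, ∅), by rw [hS]; exact mem_insert _ _⟩
  obtain ⟨e, he⟩ := hSc.exists_eq_range hSn
  refine ⟨e, fun n => ?_, ?_⟩
  · have h1 : e n ∈ S := by rw [he]; exact mem_range_self n
    rw [hS] at h1
    rcases h1 with h1 | h1
    · rw [h1]
      exact ⟨isOpen_empty, isOpen_empty⟩
    · exact ⟨hB.isOpen h1.1.1, hB.isOpen h1.1.2⟩
  · ext z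
    constructor
    · intro hz
      have h2 := (hB.prod hB).mem_nhds_iff.1 (hV.mem_nhds hz)
      obtain ⟨t, ht, hzt, htV⟩ := h2
      obtain ⟨I, hI, J, hJ, rfl⟩ := ht
      have h3 : (I, J) ∈ S := by
        rw [hS]
        exact Or.inr ⟨⟨hI, hJ⟩, htV⟩
      rw [he] at h3
      obtain ⟨n, hn⟩ := h3
      rw [mem_iUnion]
      refine ⟨n, ?_⟩
      rw [hn]
      exact hzt
    · intro hz
      rw [mem_iUnion] at hz
      obtain ⟨n, hn⟩ := hz
      have h1 : e n ∈ S := by rw [he]; exact mem_range_self n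
      rw [hS] at h1
      rcases h1 with h1 | h1
      · rw [h1] at hn
        exact absurd hn.1 (notMem_empty _)
      · exact h1.2 hn

theorem t_fun : S_fun := by
  rintro ⟨hmono, hcompl, hunion, hinter⟩ X _ _ ζ hζ
  have h1 : (1 : Ordinal.{0}) ≤ ζ := one_le_two.trans hζ
  have hopen : ∀ U : Set X, IsOpen U → SigmaZero ζ U := fun U hU =>
    hmono X 1 ζ U h1 (SigmaZero.base U hU)
  constructor
  · intro f g k hf hg hk U hU
    obtain ⟨e, he, hV⟩ := open_boxes (k ⁻¹' U) (hU.preimage hk)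
    have h2 : (fun x => k (f x, g x)) ⁻¹' U = ⋃ n, (f ⁻¹' (e n).1 ∩ g ⁻¹' (e n).2) := by
      ext x
      have h3 : (f x, g x) ∈ k ⁻¹' U ↔ (f x, g x) ∈ ⋃ n, (e n).1 ×ˢ (e n).2 := by rw [← hV]
      simp only [mem_preimage, mem_iUnion, mem_prod, mem_inter_iff] at h3 ⊢
      exact h3
    rw [h2]
    exact hunion X ζ _ (fun n => hinter X ζ _ _ (hf _ (he n).1) (hg _ (he n).2))
  · intro A hA hAc U
    rcases Set.indicator_const_preimage A U (1 : ℝ) with h | h | h | h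
    · rw [h]
      exact hopen _ isOpen_univ
    · rw [h]
      exact hA
    · rw [h]
      exact hAc
    · rw [h]
      exact hopen _ isOpen_empty

end Pool.Agent.Q222.SR
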