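import Pool.Agent.Q215.SR.Stm

set_option autoImplicit false

open Set Topology Filter

namespace Pool.Agent.Q222.SR

open Pool.Agent.Q215.SR

section

variable {X : Type} [MetricSpace X]

/-- refinement of a nonempty open set by a sequence of small ones -/
theorem step_ex [TopologicalSpace.SeparableSpace X] (U : Set X) (hU : IsOpen U) (hne : U.Nonempty)
    {ε : ℝ} (hε : 0 < ε) : ∃ V : ℕ → Set X, (∀ n, IsOpen (V n)) ∧ (∀ n, (V n).Nonempty) ∧
      (∀ n, closure (V n) ⊆ U) ∧ (∀ x ∈ U, ∃ n, x ∈ V n) ∧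
      ∀ n, ∀ x ∈ V n, ∀ y ∈ V n, dist x y ≤ ε := by
  classical
  have : Nonempty X := ⟨hne.some⟩
  obtain ⟨d, hd⟩ : ∃ d : ℕ → X, DenseRange d :=
    ⟨TopologicalSpace.denseSeq X, TopologicalSpace.denseRange_denseSeq X⟩
  obtain ⟨r, hr⟩ : ∃ r : ℕ → ℝ, r = fun j : ℕ => 1 / ((j : ℝ) + 1) := ⟨_, rfl⟩
  have hr0 : ∀ j, 0 < r j := fun j => by rw [hr]; positivity
  obtain ⟨good, hg⟩ : ∃ good : ℕ × ℕ → Prop, good = fun p =>
    Metric.closedBall (d p.1) (r p.2) ⊆ U ∧ r p.2 ≤ ε / 2 := ⟨_, rfl⟩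
  have hcov : ∀ x ∈ U, ∃ p, good p ∧ x ∈ Metric.ball (d p.1) (r p.2) := by
    intro x hx
    obtain ⟨δ, hδ, hδU⟩ := Metric.isOpen_iff.1 hU x hx
    obtain ⟨j, hj⟩ := exists_nat_one_div_lt (show 0 < min (δ / 2) (ε / 2) by positivity)
    have hj' : r j < min (δ / 2) (ε / 2) := by rw [hr]; exact hj
    obtain ⟨i, hi⟩ := hd.exists_dist_lt x (hr0 j)
    refine ⟨(i, j), ?_, ?_⟩
    · rw [hg]
      refine ⟨?_, (hj'.trans_le (min_le_right _ _)).le⟩
      intro y hy
      apply hδU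
      rw [Metric.mem_ball]
      rw [Metric.mem_closedBall] at hy
      have h1 : r j < δ / 2 := hj'.trans_le (min_le_left _ _)
      have h2 := dist_triangle y (d i) x
      rw [dist_comm (d i) x] at h2
      have h3 : dist y (d i) ≤ r j := hy
      linarith
    · rw [Metric.mem_ball]
      exact hi
  obtain ⟨x0, hx0⟩ := hne
  obtain ⟨p0, hp0, -⟩ := hcov x0 hx0
  obtain ⟨q, hq⟩ : ∃ q : ℕ → ℕ × ℕ, q = fun n => if good (Nat.unpair n) then Nat.unpair n else p0 :=
    ⟨_, rfl⟩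
  have hqg : ∀ n, good (q n) := by
    intro n
    rw [hq]
    simp only
    split_ifs with h
    · exact h
    · exact hp0
  have hqs : ∀ p, good p → ∃ n, q n = p := by
    intro p hp
    refine ⟨Nat.pair p.1 p.2, ?_⟩
    rw [hq]
    simp only [Nat.unpair_pair]
    rw [if_pos hp]
  have hqg' : ∀ n, Metric.closedBall (d (q n).1) (r (q n).2) ⊆ U ∧ r (q n).2 ≤ ε / 2 := by
    intro n
    have := hqg n
    rw [hg] at this
    exact this
  refine ⟨fun n => Metric.ball (d (q n).1) (r (q n).2), fun n => Metric.isOpen_ball,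
    fun n => ⟨d (q n).1, Metric.mem_ball_self (hr0 _)⟩,
    fun n => Metric.closure_ball_subset_closedBall.trans (hqg' n).1, ?_, ?_⟩
  · intro x hx
    obtain ⟨p, hp, hxp⟩ := hcov x hx
    obtain ⟨n, hn⟩ := hqs p hp
    refine ⟨n, ?_⟩
    show x ∈ Metric.ball (d (q n).1) (r (q n).2)
    rw [hn]
    exact hxp
  · intro n x hx y hy
    have h1 := (hqg' n).2
    have h2 := dist_triangle_right x y (d (q n).1)
    have h3 : dist x (d (q n).1) < r (q n).2 := hx
    have h4 : dist y (d (q n).1) < r (q n).2 := hy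
    linarith

/-- nonempty open sets -/
def NO (X : Type) [MetricSpace X] : Type := {U : Set X // IsOpen U ∧ U.Nonempty}

theorem next_ex [TopologicalSpace.SeparableSpace X] (U : NO X) (n : ℕ) :
    ∃ V : ℕ → NO X, (∀ k, closure (V k).1 ⊆ U.1) ∧ (∀ x ∈ U.1, ∃ k, x ∈ (V k).1) ∧
      ∀ k, ∀ x ∈ (V k).1, ∀ y ∈ (V k).1, dist x y ≤ (1 / 2 : ℝ) ^ n := by
  obtain ⟨V, h1, h2, h3, h4, h5⟩ := step_ex U.1 U.2.1 U.2.2 (show (0 : ℝ) < (1 / 2) ^ n by positivity)
  exact ⟨fun k => ⟨V k, h1 k, h2 k⟩, h3, h4, h5⟩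

/-- the next sets -/
noncomputable def nx [TopologicalSpace.SeparableSpace X] (U : NO X) (n : ℕ) : ℕ → NO X :=
  (next_ex U n).choose

theorem nx_cl [TopologicalSpace.SeparableSpace X] (U : NO X) (n k : ℕ) :
    closure (nx U n k).1 ⊆ U.1 := (next_ex U n).choose_spec.1 k

theorem nx_cov [TopologicalSpace.SeparableSpace X] (U : NO X) (n : ℕ) {x : X} (hx : x ∈ U.1) :
    ∃ k, x ∈ (nx U n k).1 := (next_ex U n).choose_spec.2.1 x hx

theorem nx_diam [TopologicalSpace.SeparableSpace X] (U : NO X) (n k : ℕ) {x y : X}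
    (hx : x ∈ (nx U n k).1) (hy : y ∈ (nx U n k).1) : dist x y ≤ (1 / 2 : ℝ) ^ n :=
  (next_ex U n).choose_spec.2.2 k x hx y hy

/-- the scheme -/
noncomputable def sch [TopologicalSpace.SeparableSpace X] (U0 : NO X) (y : ℕ → ℕ) : ℕ → NO X
  | 0 => U0
  | n + 1 => nx (sch U0 y n) n (y n)

theorem sch_congr [TopologicalSpace.SeparableSpace X] (U0 : NO X) {y y' : ℕ → ℕ} (n : ℕ)
    (h : ∀ i < n, y i = y' i) : sch U0 y n = sch U0 y' n := by
  induction n with
  | zero => rfl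
  | succ n ih =>
    show nx (sch U0 y n) n (y n) = nx (sch U0 y' n) n (y' n)
    rw [ih (fun i hi => h i (Nat.lt_succ_of_lt hi)), h n (Nat.lt_succ_self n)]

theorem sch_anti [TopologicalSpace.SeparableSpace X] (U0 : NO X) (y : ℕ → ℕ) {m n : ℕ}
    (h : m ≤ n) : (sch U0 y n).1 ⊆ (sch U0 y m).1 := by
  induction n, h using Nat.le_induction with
  | base => exact le_rfl
  | succ n _ ih => exact (subset_closure.trans (nx_cl _ _ _)).trans ih

theorem lim_ex [TopologicalSpace.SeparableSpace X] [CompleteSpace X] (U0 : NO X) (y : ℕ → ℕ) :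
    ∃ x : X, ∀ n, x ∈ (sch U0 y n).1 := by
  have h1 : ∀ n, ∃ x, x ∈ (sch U0 y (n + 1)).1 := fun n => (sch U0 y (n + 1)).2.2
  choose u hu using h1
  have hc : CauchySeq u := by
    apply cauchySeq_of_le_geometric (1 / 2) 1 (by norm_num)
    intro n
    rw [one_mul]
    exact nx_diam (sch U0 y n) n (y n) (hu n) (sch_anti U0 y (Nat.le_succ (n + 1)) (hu (n + 1)))
  obtain ⟨x, hx⟩ := cauchySeq_tendsto_of_complete hc
  refine ⟨x, fun n => ?_⟩
  have h2 : x ∈ closure (sch U0 y (n + 1)).1 := by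
    apply mem_closure_of_tendsto hx
    filter_upwards [eventually_ge_atTop n] with m hm
    exact sch_anti U0 y (Nat.succ_le_succ hm) (hu m)
  exact nx_cl _ _ _ h2

/-- the point of a branch -/
noncomputable def lm [TopologicalSpace.SeparableSpace X] [CompleteSpace X] (U0 : NO X)
    (y : ℕ → ℕ) : X := (lim_ex U0 y).choose

theorem lm_mem [TopologicalSpace.SeparableSpace X] [CompleteSpace X] (U0 : NO X) (y : ℕ → ℕ)
    (n : ℕ) : lm U0 y ∈ (sch U0 y n).1 := (lim_ex U0 y).choose_spec n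

theorem lm_eq [TopologicalSpace.SeparableSpace X] [CompleteSpace X] (U0 : NO X) (y : ℕ → ℕ)
    {x : X} (hx : ∀ n, x ∈ (sch U0 y n).1) : lm U0 y = x := by
  have h1 : ∀ n, dist (lm U0 y) x ≤ (1 / 2 : ℝ) ^ n := fun n =>
    nx_diam (sch U0 y n) n (y n) (lm_mem U0 y (n + 1)) (hx (n + 1))
  have h2 : Tendsto (fun n : ℕ => (1 / 2 : ℝ) ^ n) atTop (𝓝 0) :=
    tendsto_pow_atTop_nhds_zero_of_lt_one (by norm_num) (by norm_num)
  have h3 : dist (lm U0 y) x ≤ 0 := ge_of_tendsto' h2 h1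
  exact dist_le_zero.1 h3

theorem lm_cont [TopologicalSpace.SeparableSpace X] [CompleteSpace X] (U0 : NO X) :
    Continuous (lm U0 : (ℕ → ℕ) → X) := by
  rw [continuous_iff_continuousAt]
  intro y
  rw [ContinuousAt, Metric.tendsto_nhds]
  intro ε hε
  obtain ⟨n, hn⟩ := exists_pow_lt_of_lt_one hε (show (1 / 2 : ℝ) < 1 by norm_num)
  have h1 : PiNat.cylinder y (n + 1) ∈ 𝓝 y :=
    (PiNat.isOpen_cylinder (fun _ => ℕ) y (n + 1)).mem_nhds (PiNat.self_mem_cylinder y _)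
  filter_upwards [h1] with y' hy'
  have h2 : sch U0 y' (n + 1) = sch U0 y (n + 1) :=
    sch_congr U0 (n + 1) (fun i hi => (PiNat.mem_cylinder_iff.1 hy') i hi)
  have h3 := lm_mem U0 y' (n + 1)
  rw [h2] at h3
  exact lt_of_le_of_lt (nx_diam (sch U0 y n) n (y n) h3 (lm_mem U0 y (n + 1))) hn

/-- every point of a set of the scheme is the point of a branch through it -/
theorem lm_onto [TopologicalSpace.SeparableSpace X] [CompleteSpace X] (U0 : NO X) (y : ℕ → ℕ)
    (n : ℕ) {x : X} (hx : x ∈ (sch U0 y n).1) : ∃ y', (∀ i < n, y' i = y i) ∧ lm U0 y' = x := by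
  classical
  obtain ⟨pk, hpk⟩ : ∃ pk : NO X → ℕ → ℕ, ∀ U m, x ∈ U.1 → x ∈ (nx U m (pk U m)).1 := by
    refine ⟨fun U m => if h : x ∈ U.1 then (nx_cov U m h).choose else 0, ?_⟩
    intro U m h
    simp only
    rw [dif_pos h]
    exact (nx_cov U m h).choose_spec
  obtain ⟨z, hz⟩ : ∃ z : ℕ → NO X, z = fun m => Nat.rec U0
    (fun m U => nx U m (if m < n then y m else pk U m)) m := ⟨_, rfl⟩
  have hz0 : z 0 = U0 := by rw [hz]; rfl
  have hzs : ∀ m, z (m + 1) = nx (z m) m (if m < n then y m else pk (z m) m) := by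
    intro m
    rw [hz]
  obtain ⟨w, hw⟩ : ∃ w : ℕ → ℕ, w = fun m => if m < n then y m else pk (z m) m := ⟨_, rfl⟩
  have hwz : ∀ m, sch U0 w m = z m := by
    intro m
    induction m with
    | zero => rw [hz0]; rfl
    | succ m ih =>
      rw [hzs]
      show nx (sch U0 w m) m (w m) = _
      rw [ih, hw]
  have hwy : ∀ i < n, w i = y i := by
    intro i hi
    rw [hw]
    simp only
    rw [if_pos hi]
  refine ⟨w, hwy, ?_⟩
  apply lm_eq
  have h1 : ∀ m, n ≤ m → x ∈ (sch U0 w m).1 := by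
    intro m hm
    induction m, hm using Nat.le_induction with
    | base =>
      rw [sch_congr U0 n hwy]
      exact hx
    | succ m hm ih =>
      rw [hwz, hzs, if_neg (not_lt.2 hm)]
      apply hpk
      rw [← hwz]
      exact ih
  intro m
  rcases le_total n m with h | h
  · exact h1 m h
  · exact sch_anti U0 w h (h1 n le_rfl)

theorem surj_metric [TopologicalSpace.SeparableSpace X] [CompleteSpace X] [Nonempty X] :
    ∃ π : (ℕ → ℕ) → X, Continuous π ∧ Function.Surjective π ∧ IsOpenMap π := by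
  obtain ⟨U0, hU0⟩ : ∃ U0 : NO X, U0.1 = univ := ⟨⟨univ, isOpen_univ, univ_nonempty⟩, rfl⟩
  refine ⟨lm U0, lm_cont U0, ?_, ?_⟩
  · intro x
    obtain ⟨y, -, hy⟩ := lm_onto U0 (fun _ => 0) 0 (x := x) (by
      show x ∈ U0.1
      rw [hU0]
      exact mem_univ x)
    exact ⟨y, hy⟩
  · intro O hO
    rw [isOpen_iff_mem_nhds]
    rintro _ ⟨y, hy, rfl⟩
    obtain ⟨s, ⟨y0, n, rfl⟩, hys, hsO⟩ :=
      (PiNat.isTopologicalBasis_cylinders (fun _ : ℕ => ℕ)).mem_nhds_iff.1 (hO.mem_nhds hy)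
    have h1 : (sch U0 y n).1 ∈ 𝓝 (lm U0 y) := (sch U0 y n).2.1.mem_nhds (lm_mem U0 y n)
    apply mem_of_superset h1
    intro x hx
    obtain ⟨y', hy', rfl⟩ := lm_onto U0 y n hx
    refine ⟨y', hsO ?_, rfl⟩
    rw [PiNat.mem_cylinder_iff] at hys ⊢
    intro i hi
    rw [hy' i hi, hys i hi]

end

theorem t_surj : S_surj := by
  intro X _ _ _
  let _ := TopologicalSpace.upgradeIsCompletelyMetrizable X
  exact surj_metric

end Pool.Agent.Q222.SR
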